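import Mathlib

/-!
An `S₃`-extension `L/K` of characteristic `5`, generated by `s`, `ω` with `s³ = t`, `ω² + ω + 1 = 0`.
-/

set_option autoImplicit false

namespace Pool.Agent.R293.HO

structure Dat (R K L : Type) [CommRing R] [Field K] [Field L] [Algebra R K] [Algebra R L]
    [Algebra K L] (t : K) (s ω : L) (σ τ : L ≃ₐ[K] L) : Prop where
  s3 : s ^ 3 = algebraMap K L t
  ω2 : ω ^ 2 + ω + 1 = 0
  five : (5 : L) = 0
  s0 : s ≠ 0
  σs : σ s = ω * s
  σω : σ ω = ω
  τs : τ s = s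
  τω : τ ω = ω ^ 2
  bij : Function.Bijective (fun p : Fin 3 × Fin 2 => σ ^ (p.1 : ℕ) * τ ^ (p.2 : ℕ))
  σ3 : σ ^ 3 = 1
  τ2 : τ * τ = 1
  τσ : τ * σ = σ ^ 2 * τ
  tint : IsIntegral R t
  F1 : ∀ a : K, IsIntegral R (a ^ 3 * t) → IsIntegral R a
  F2 : ∀ a : K, IsIntegral R (a ^ 3 * t ^ 2) → IsIntegral R a
  tinv : ¬ IsIntegral R t⁻¹

namespace Dat

variable {R K L : Type} [CommRing R] [Field K] [Field L] [Algebra R K] [Algebra R L]
    [Algebra K L] {t : K} {s ω : L} {σ τ : L ≃ₐ[K] L} (h : Dat R K L t s ω σ τ)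

include h

lemma t0 : t ≠ 0 := by
  rintro rfl
  have := h.s3
  rw [map_zero, pow_eq_zero_iff three_ne_zero] at this
  exact h.s0 this

lemma ω3 : ω ^ 3 = 1 := by
  linear_combination (ω - 1) * h.ω2

lemma ω0 : ω ≠ 0 := by
  intro h0
  have := h.ω2
  rw [h0] at this
  norm_num at this

/-- `(ω² - ω)² = 2` -/
lemma u2 : (ω ^ 2 - ω) * (ω ^ 2 - ω) = 2 := by
  linear_combination (ω ^ 2 - 3 * ω + 3) * h.ω2 - h.five

lemma uinv : 3 * (ω ^ 2 - ω) * (ω ^ 2 - ω) = 1 := by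
  linear_combination 3 * h.u2 + h.five

lemma u0 : ω ^ 2 - ω ≠ 0 := by
  intro h0
  have := h.uinv
  rw [h0, mul_zero] at this
  exact zero_ne_one this

lemma cases (g : L ≃ₐ[K] L) : g = 1 ∨ g = τ ∨ g = σ ∨ g = σ * τ ∨ g = σ ^ 2 ∨ g = σ ^ 2 * τ := by
  obtain ⟨⟨i, j⟩, rfl⟩ := h.bij.2 g
  fin_cases i <;> fin_cases j <;> simp

lemma sumG [Fintype (L ≃ₐ[K] L)] {M : Type} [AddCommMonoid M] (F : (L ≃ₐ[K] L) → M) :
    ∑ g, F g = (F 1 + F τ) + (F σ + F (σ * τ)) + (F (σ ^ 2) + F (σ ^ 2 * τ)) := by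
  rw [← (Equiv.ofBijective _ h.bij).sum_comp F, Fintype.sum_prod_type, Fin.sum_univ_three,
    Fin.sum_univ_two, Fin.sum_univ_two, Fin.sum_univ_two]
  simp

lemma σ_s2 : (σ ^ 2) s = ω ^ 2 * s := by
  rw [pow_two, AlgEquiv.mul_apply, h.σs, map_mul, h.σω, h.σs]; ring

lemma σ_ω2 : (σ ^ 2) ω = ω := by
  rw [pow_two, AlgEquiv.mul_apply, h.σω, h.σω]

lemma fixed [FiniteDimensional K L] [IsGalois K L] {x : L} (h1 : σ x = x) (h2 : τ x = x) :
    ∃ a : K, algebraMap K L a = x := by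
  have h3 : ∀ g : L ≃ₐ[K] L, g x = x := by
    intro g
    rcases h.cases g with rfl | rfl | rfl | rfl | rfl | rfl
    · rfl
    · exact h2
    · exact h1
    · rw [AlgEquiv.mul_apply, h2, h1]
    · rw [pow_two, AlgEquiv.mul_apply, h1, h1]
    · rw [pow_two, AlgEquiv.mul_apply, AlgEquiv.mul_apply, h2, h1, h1]
  have h4 := (IsGalois.mem_bot_iff_fixed (F := K) (E := L) x).2 h3
  exact IntermediateField.mem_bot.1 h4

end Dat

/-! ### integrality -/

section int

variable {R K L : Type} [CommRing R] [Field K] [Field L] [Algebra R K] [Algebra R L]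
    [Algebra K L] [IsScalarTower R K L]

lemma int_map (g : L ≃ₐ[K] L) {x : L} (hx : IsIntegral R x) : IsIntegral R (g x) :=
  hx.map ((g : L →ₐ[K] L).restrictScalars R)

lemma int_map_iff {a : K} : IsIntegral R (algebraMap K L a) ↔ IsIntegral R a :=
  isIntegral_algebraMap_iff (algebraMap K L).injective

variable {t : K} {s ω : L} {σ τ : L ≃ₐ[K] L} (h : Dat R K L t s ω σ τ)

include h

lemma Dat.int_ω : IsIntegral R ω :=
  IsIntegral.of_pow (n := 3) (by norm_num) (by rw [h.ω3]; exact isIntegral_one)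

lemma Dat.int_s : IsIntegral R s :=
  IsIntegral.of_pow (n := 3) (by norm_num) (by rw [h.s3]; exact int_map_iff.2 h.tint)

lemma Dat.int_F1 {a : K} (ha : IsIntegral R (algebraMap K L a * s)) : IsIntegral R a := by
  apply h.F1
  rw [← int_map_iff (L := L)]
  have h1 := ha.pow 3
  rwa [mul_pow, h.s3, ← map_pow, ← map_mul] at h1

lemma Dat.int_F2 {a : K} (ha : IsIntegral R (algebraMap K L a * s ^ 2)) : IsIntegral R a := by
  apply h.F2
  rw [← int_map_iff (L := L)]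
  have h1 := ha.pow 3
  have h2 : (algebraMap K L a * s ^ 2) ^ 3 = algebraMap K L (a ^ 3 * t ^ 2) := by
    rw [map_mul, map_pow, map_pow, ← h.s3]; ring
  rwa [h2] at h1

lemma Dat.int_A [FiniteDimensional K L] [IsGalois K L] {c : L} (hc : σ c = c) (p : L)
    (hp : τ p = p) (hF : ∀ a : K, IsIntegral R (algebraMap K L a * p) → IsIntegral R a)
    (hi : IsIntegral R (c * p)) : IsIntegral R c := by
  have hστ : ∀ x, σ (τ x) = τ (σ (σ x)) := by
    intro x
    have e : σ * τ = τ * (σ * σ) := by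
      have h1 := h.τσ
      calc σ * τ = σ ^ 3 * (σ * τ) := by rw [h.σ3, one_mul]
        _ = σ ^ 2 * (σ ^ 2 * τ) := by group
        _ = σ ^ 2 * (τ * σ) := by rw [h1]
        _ = (σ ^ 2 * τ) * σ := by group
        _ = τ * σ * σ := by rw [h1]
        _ = τ * (σ * σ) := by group
    have := congrArg (fun g : L ≃ₐ[K] L => g x) e
    exact this
  have hτc : σ (τ c) = τ c := by rw [hστ, hc, hc]
  have hττ : ∀ x, τ (τ x) = x := fun x => by
    have := congrArg (fun g : L ≃ₐ[K] L => g x) h.τ2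
    exact this
  obtain ⟨A, hA⟩ := h.fixed (x := c + τ c) (by rw [map_add, hc, hτc])
    (by rw [map_add, hττ, add_comm])
  obtain ⟨B, hB⟩ := h.fixed (x := ω * c + ω ^ 2 * τ c)
    (by rw [map_add, map_mul, map_mul, map_pow, hc, hτc, h.σω])
    (by rw [map_add, map_mul, map_mul, map_pow, hττ, h.τω]
        linear_combination (ω * c) * h.ω3)
  have hAi : IsIntegral R A := by
    apply hF
    rw [hA, add_mul]
    refine hi.add ?_
    have := int_map (R := R) τ hi
    rwa [map_mul, hp] at this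
  have hBi : IsIntegral R B := by
    apply hF
    rw [hB, add_mul]
    have h1 : ω * c * p = ω * (c * p) := by ring
    have h2 : ω ^ 2 * τ c * p = ω ^ 2 * τ (c * p) := by rw [map_mul, hp]; ring
    rw [h1, h2]
    exact (h.int_ω.mul hi).add ((h.int_ω.pow 2).mul (int_map τ hi))
  have e : c = 3 * (ω ^ 2 - ω) * (ω ^ 2 * algebraMap K L A - algebraMap K L B) := by
    rw [hA, hB]
    have e1 : ω ^ 2 * (c + τ c) - (ω * c + ω ^ 2 * τ c) = (ω ^ 2 - ω) * c := by ring
    rw [e1, ← mul_assoc, h.uinv, one_mul]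
  rw [e]
  have h3 : IsIntegral R (3 : L) := by
    have := isIntegral_algebraMap (R := R) (A := L) (x := 3)
    rwa [map_ofNat] at this
  exact (h3.mul ((h.int_ω.pow 2).sub h.int_ω)).mul
    (((h.int_ω.pow 2).mul (int_map_iff.2 hAi)).sub (int_map_iff.2 hBi))

end int

end Pool.Agent.R293.HO
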