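import Pool.Agent.R293.HO.Dat

/-!
The splitting field of `X³ - t` over `𝔽₅(t)`.
-/

set_option autoImplicit false

open Polynomial

noncomputable section

namespace Pool.Agent.R293.HO

instance five_prime : Fact (Nat.Prime 5) := ⟨by norm_num⟩

/-- `𝔽₅(t)` -/
abbrev K5 := RatFunc (ZMod 5)

/-- `𝔽₅[t]` -/
abbrev R5 := (ZMod 5)[X]

abbrev t5 : K5 := RatFunc.X

/-- `X³ - t` -/
abbrev f5 : K5[X] := X ^ 3 - C t5

abbrev L5 := SplittingField f5

lemma K5_five : (5 : K5) = 0 := by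
  have h : ((5 : ℕ) : ZMod 5) = 0 := by decide
  have h2 := congrArg (RatFunc.C : ZMod 5 →+* K5) h
  rw [map_natCast, map_zero] at h2
  exact_mod_cast h2

lemma not_cube (b : K5) : b ^ 3 ≠ t5 := by
  intro h
  have hb : b ≠ 0 := by
    rintro rfl
    rw [zero_pow three_ne_zero] at h
    exact RatFunc.X_ne_zero h.symm
  have h1 : RatFunc.intDegree (b ^ 3) = 1 := by rw [h, RatFunc.intDegree_X]
  have h2 : RatFunc.intDegree (b ^ 3) = RatFunc.intDegree b + RatFunc.intDegree b +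
      RatFunc.intDegree b := by
    rw [show b ^ 3 = b * b * b by ring, RatFunc.intDegree_mul (mul_ne_zero hb hb) hb,
      RatFunc.intDegree_mul hb hb]
  omega

lemma f5_irr : Irreducible f5 := X_pow_sub_C_irreducible_of_prime Nat.prime_three not_cube

lemma f5_deg : f5.natDegree = 3 := natDegree_X_pow_sub_C

lemma f5_sep : f5.Separable := by
  refine separable_X_pow_sub_C _ ?_ RatFunc.X_ne_zero
  intro h
  have h3 : (3 : K5) = 0 := by exact_mod_cast h
  have : (1 : K5) = 0 := by linear_combination 2 * h3 - K5_five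
  exact one_ne_zero this

lemma int_iff {a : K5} : IsIntegral R5 a ↔ ∃ p : R5, algebraMap R5 K5 p = a :=
  IsIntegrallyClosed.isIntegral_iff

lemma no_ω (w : K5) : w ^ 2 + w + 1 ≠ 0 := by
  intro h
  have hw : IsIntegral R5 w := by
    refine IsIntegral.of_pow (n := 3) (by norm_num) ?_
    have : w ^ 3 = 1 := by linear_combination (w - 1) * h
    rw [this]
    exact isIntegral_one
  obtain ⟨p, rfl⟩ := int_iff.1 hw
  have h1 : p ^ 2 + p + 1 = 0 := by
    apply FaithfulSMul.algebraMap_injective R5 K5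
    rw [map_add, map_add, map_pow, map_one, map_zero]
    exact h
  have h2 : p * (-(p + 1)) = 1 := by linear_combination -h1
  obtain ⟨c, hc, rfl⟩ := Polynomial.isUnit_iff.1 (IsUnit.of_mul_eq_one _ h2)
  have h3 : c ^ 2 + c + 1 = 0 := by
    apply C_injective
    rw [map_add, map_add, map_pow, map_one, map_zero]
    exact h1
  revert h3
  clear hc h2 h1 hw h
  revert c
  decide

lemma F_aux {a : K5} {i : ℕ} (hi : i ≤ 2) (h : IsIntegral R5 (a ^ 3 * t5 ^ i)) :
    IsIntegral R5 a := by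
  obtain ⟨r, hr⟩ := int_iff.1 h
  have hd : algebraMap R5 K5 a.denom ≠ 0 := by
    intro h0
    exact a.denom_ne_zero (FaithfulSMul.algebraMap_injective R5 K5 (by rw [h0, map_zero]))
  have ha : a = algebraMap R5 K5 a.num / algebraMap R5 K5 a.denom := (RatFunc.num_div_denom a).symm
  have h1 : a.num ^ 3 * X ^ i = r * a.denom ^ 3 := by
    apply FaithfulSMul.algebraMap_injective R5 K5
    rw [map_mul, map_mul, map_pow, map_pow, map_pow, RatFunc.algebraMap_X, hr]
    have h2 : algebraMap R5 K5 a.num = a * algebraMap R5 K5 a.denom :=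
      ((eq_div_iff hd).1 ha).symm
    rw [h2]
    ring
  have h2 : IsCoprime (a.num ^ 3) (a.denom ^ 3) := (RatFunc.isCoprime_num_denom a).pow
  have h3 : a.denom ^ 3 ∣ X ^ i := by
    refine h2.symm.dvd_of_dvd_mul_left ?_
    exact ⟨r, by rw [h1, mul_comm]⟩
  have h4 := natDegree_le_of_dvd h3 (pow_ne_zero _ X_ne_zero)
  rw [natDegree_pow, natDegree_X_pow] at h4
  have h5 : a.denom.natDegree = 0 := by omega
  have h6 : a.denom = 1 := (RatFunc.monic_denom a).natDegree_eq_zero.1 h5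
  rw [int_iff]
  refine ⟨a.num, ?_⟩
  conv_rhs => rw [ha]
  rw [h6, map_one, div_one]

lemma t5_inv : ¬ IsIntegral R5 (t5⁻¹) := by
  intro h
  obtain ⟨r, hr⟩ := int_iff.1 h
  have h1 : X * r = 1 := by
    apply FaithfulSMul.algebraMap_injective R5 K5
    rw [map_mul, hr, RatFunc.algebraMap_X, map_one]
    exact mul_inv_cancel₀ RatFunc.X_ne_zero
  exact Polynomial.not_isUnit_X (IsUnit.of_mul_eq_one _ h1)

lemma t5_int : IsIntegral R5 t5 := int_iff.2 ⟨X, RatFunc.algebraMap_X⟩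

instance : IsGalois K5 L5 := IsGalois.of_separable_splitting_field f5_sep

lemma L5_five : (5 : L5) = 0 := by
  have h2 := congrArg (algebraMap K5 L5) K5_five
  rwa [map_ofNat, map_zero] at h2

/-- the roots -/
lemma exists_sω : ∃ s ω : L5, s ^ 3 = algebraMap K5 L5 t5 ∧ ω ^ 2 + ω + 1 = 0 ∧ s ≠ 0 := by
  have h1 := card_rootSet_eq_natDegree (K := L5) f5_sep (SplittingField.splits f5)
  rw [f5_deg] at h1
  obtain ⟨a, b, hab⟩ := Fintype.exists_pair_of_one_lt_card (α := f5.rootSet L5) (by omega)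
  have hr : ∀ x : f5.rootSet L5, (x : L5) ^ 3 = algebraMap K5 L5 t5 := by
    intro x
    have := (mem_rootSet.1 x.2).2
    rw [map_sub, map_pow, aeval_X, aeval_C] at this
    exact sub_eq_zero.1 this
  have ha0 : (a : L5) ≠ 0 := by
    intro h
    have := hr a
    rw [h, zero_pow three_ne_zero] at this
    exact RatFunc.X_ne_zero ((algebraMap K5 L5).injective (by rw [← this, map_zero]))
  refine ⟨a, b / a, hr a, ?_, ha0⟩
  have h2 : ((b : L5) / a) ^ 3 = 1 := by
    rw [div_pow, hr, hr]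
    exact div_self (by rw [← hr a]; exact pow_ne_zero _ ha0)
  have h3 : (b : L5) / a - 1 ≠ 0 := by
    intro h
    rw [sub_eq_zero, div_eq_one_iff_eq ha0] at h
    exact hab (Subtype.ext h.symm)
  have h4 : ((b : L5) / a - 1) * (((b : L5) / a) ^ 2 + (b : L5) / a + 1) = 0 := by
    linear_combination h2
  exact (mul_eq_zero.1 h4).resolve_left h3

section grp

variable {s ω : L5} (hs : s ^ 3 = algebraMap K5 L5 t5) (hω : ω ^ 2 + ω + 1 = 0) (hs0 : s ≠ 0)

include hω in
lemma w3 : ω ^ 3 = 1 := by linear_combination (ω - 1) * hω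

include hω in
lemma w0 : ω ≠ 0 := by
  rintro rfl
  norm_num at hω

include hω in
lemma w1 : ω ≠ 1 := by
  rintro rfl
  have h1 : (1 : L5) = 0 := by linear_combination 2 * hω - L5_five
  exact one_ne_zero h1

include hω in
lemma w12 : ω ^ 2 ≠ ω := by
  intro h
  have : ω * (ω - 1) = 0 := by linear_combination h
  rcases mul_eq_zero.1 this with h0 | h0
  · exact w0 hω h0
  · exact w1 hω (sub_eq_zero.1 h0)

include hω in
lemma w02 : ω ^ 2 ≠ 1 := by
  intro h
  apply w1 hω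
  have := w3 hω
  linear_combination this - ω * h

include hs hω hs0 in
lemma ext_g {g g' : L5 ≃ₐ[K5] L5} (h1 : g s = g' s) (h2 : g ω = g' ω) : g = g' := by
  have h3 : (g : L5 →ₐ[K5] L5) = (g' : L5 →ₐ[K5] L5) := by
    refine AlgHom.ext_of_adjoin_eq_top (SplittingField.adjoin_rootSet f5) ?_
    intro x hx
    have hx3 : x ^ 3 = algebraMap K5 L5 t5 := by
      have := (mem_rootSet.1 hx).2
      rw [map_sub, map_pow, aeval_X, aeval_C] at this
      exact sub_eq_zero.1 this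
    have h4 : (x - s) * ((x - ω * s) * (x - ω ^ 2 * s)) = 0 := by
      have h5 := w3 hω
      linear_combination hx3 - hs + (- x ^ 2 * s + x * s ^ 2) * hω +
        (x * s ^ 2 - s ^ 3) * h5
    show g x = g' x
    rcases mul_eq_zero.1 h4 with h | h
    · rw [sub_eq_zero.1 h, h1]
    rcases mul_eq_zero.1 h with h | h
    · rw [sub_eq_zero.1 h, map_mul, map_mul, h1, h2]
    · rw [sub_eq_zero.1 h, map_mul, map_mul, map_pow, map_pow, h1, h2]
  ext x
  exact congrArg (fun φ : L5 →ₐ[K5] L5 => φ x) h3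

include hs hs0 hω in
lemma g_s (g : L5 ≃ₐ[K5] L5) : ∃ k : Fin 3, g s = ω ^ (k : ℕ) * s := by
  have h1 : (g s) ^ 3 = s ^ 3 := by rw [← map_pow, hs, AlgEquiv.commutes]
  have h4 : (g s - s) * ((g s - ω * s) * (g s - ω ^ 2 * s)) = 0 := by
    have h5 := w3 hω
    linear_combination h1 + (- (g s) ^ 2 * s + (g s) * s ^ 2) * hω +
        ((g s) * s ^ 2 - s ^ 3) * h5
  rcases mul_eq_zero.1 h4 with h | h
  · exact ⟨0, by rw [sub_eq_zero.1 h]; simp⟩
  rcases mul_eq_zero.1 h with h | h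
  · exact ⟨1, by rw [sub_eq_zero.1 h]; simp⟩
  · exact ⟨2, by rw [sub_eq_zero.1 h]; simp⟩

include hω in
lemma g_ω (g : L5 ≃ₐ[K5] L5) : ∃ k : Fin 2, g ω = ω ^ ((k : ℕ) + 1) := by
  have h1 : (g ω) ^ 2 + g ω + 1 = 0 := by
    rw [← map_pow, ← map_add, ← map_one g, ← map_add, hω, map_zero]
  have h4 : (g ω - ω) * (g ω - ω ^ 2) = 0 := by
    have h5 := w3 hω
    linear_combination h1 - (g ω) * hω + h5
  rcases mul_eq_zero.1 h4 with h | h
  · exact ⟨0, by rw [sub_eq_zero.1 h]; simp⟩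
  · exact ⟨1, by rw [sub_eq_zero.1 h]; simp⟩

lemma dvd_of_root {f : K5[X]} (hi : Irreducible f) (hm : f.Monic) {x : L5}
    (hx : aeval x f = 0) : f.natDegree ∣ Module.finrank K5 L5 := by
  rw [minpoly.eq_of_irreducible_of_monic hi hx hm]
  exact minpoly.degree_dvd (Algebra.IsIntegral.isIntegral x)

include hs hω in
lemma card6 : 6 ∣ Module.finrank K5 L5 := by
  have h1 : 3 ∣ Module.finrank K5 L5 := by
    rw [← f5_deg]
    refine dvd_of_root f5_irr (monic_X_pow_sub_C _ three_ne_zero) (x := s) ?_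
    rw [map_sub, map_pow, aeval_X, aeval_C, hs, sub_self]
  have h2 : 2 ∣ Module.finrank K5 L5 := by
    have hd : (X ^ 2 + X + 1 : K5[X]).natDegree = 2 := by compute_degree!
    rw [← hd]
    refine dvd_of_root ?_ (by monicity!) (x := ω) ?_
    · refine irreducible_of_degree_le_three_of_not_isRoot (by rw [hd]; decide) fun x hx => ?_
      apply no_ω x
      have := hx.eq_zero
      simpa using this
    · simpa using hω
  exact (Nat.Coprime.mul_dvd_of_dvd_of_dvd (by norm_num) h1 h2)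

include hs hω hs0 in
lemma exists_g (k : Fin 3) (j : Fin 2) : ∃ g : L5 ≃ₐ[K5] L5, g s = ω ^ (k : ℕ) * s ∧
    g ω = ω ^ ((j : ℕ) + 1) := by
  classical
  choose p hp using g_s hs hω hs0
  choose q hq using g_ω hω
  let Φ : (L5 ≃ₐ[K5] L5) → Fin 3 × Fin 2 := fun g => (p g, q g)
  have hinj : Function.Injective Φ := by
    intro g g' hgg
    have h1 : p g = p g' := congrArg Prod.fst hgg
    have h2 : q g = q g' := congrArg Prod.snd hgg
    exact ext_g hs hω hs0 (by rw [hp, hp, h1]) (by rw [hq, hq, h2])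
  have hfin : Finite (L5 ≃ₐ[K5] L5) := Finite.of_injective Φ hinj
  have hcard : Nat.card (Fin 3 × Fin 2) ≤ Nat.card (L5 ≃ₐ[K5] L5) := by
    have h1 : Nat.card (L5 ≃ₐ[K5] L5) = Module.finrank K5 L5 := IsGalois.card_aut_eq_finrank K5 L5
    rw [h1]
    have h2 : Nat.card (Fin 3 × Fin 2) = 6 := by simp
    rw [h2]
    exact Nat.le_of_dvd Module.finrank_pos (card6 hs hω)
  obtain ⟨g, hg⟩ := (hinj.bijective_of_nat_card_le hcard).2 (k, j)
  refine ⟨g, ?_, ?_⟩
  · have h1 : p g = k := congrArg Prod.fst hg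
    rw [hp, h1]
  · have h1 : q g = j := congrArg Prod.snd hg
    rw [hq, h1]

end grp

theorem exists_dat : ∃ (s ω : L5) (σ τ : L5 ≃ₐ[K5] L5), Dat R5 K5 L5 t5 s ω σ τ := by
  obtain ⟨s, ω, hs, hω, hs0⟩ := exists_sω
  obtain ⟨σ, hσ1, hσ2⟩ := exists_g hs hω hs0 1 0
  obtain ⟨τ, hτ1, hτ2⟩ := exists_g hs hω hs0 0 1
  have e1 : σ s = ω * s := by rw [hσ1]; simp
  have e2 : σ ω = ω := by rw [hσ2]; simp
  have e3 : τ s = s := by rw [hτ1]; simp
  have e4 : τ ω = ω ^ 2 := by rw [hτ2]; simp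
  have h3 := w3 hω
  have hext : ∀ {g g' : L5 ≃ₐ[K5] L5}, g s = g' s → g ω = g' ω → g = g' := fun h1 h2 =>
    ext_g hs hω hs0 h1 h2
  have hσ22 : (σ ^ 2) s = ω ^ 2 * s := by
    rw [pow_two, AlgEquiv.mul_apply, e1, map_mul, e2, e1]; ring
  have hσω2 : (σ ^ 2) ω = ω := by rw [pow_two, AlgEquiv.mul_apply, e2, e2]
  refine ⟨s, ω, σ, τ, ⟨hs, hω, L5_five, hs0, e1, e2, e3, e4, ?_, ?_, ?_, ?_, t5_int,
    fun a ha => F_aux (i := 1) (by norm_num) (by rwa [pow_one]),
    fun a ha => F_aux (i := 2) le_rfl ha, t5_inv⟩⟩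
  · have hsurj : Function.Surjective
        (fun p : Fin 3 × Fin 2 => σ ^ (p.1 : ℕ) * τ ^ (p.2 : ℕ)) := by
      intro g
      obtain ⟨k, hk⟩ := g_s hs hω hs0 g
      obtain ⟨j, hj⟩ := g_ω hω g
      refine ⟨(k, j), hext ?_ ?_⟩
      · rw [hk]
        fin_cases k <;> fin_cases j <;> simp [e1, e3, hσ22]
      · rw [hj]
        fin_cases k <;> fin_cases j <;> simp [e2, e4, hσω2]
    classical
    have hfin : Finite (L5 ≃ₐ[K5] L5) := Finite.of_surjective _ hsurj
    refine hsurj.bijective_of_nat_card_le ?_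
    have h1 : Nat.card (L5 ≃ₐ[K5] L5) = Module.finrank K5 L5 := IsGalois.card_aut_eq_finrank K5 L5
    rw [h1]
    have h2 : Nat.card (Fin 3 × Fin 2) = 6 := by simp
    rw [h2]
    exact Nat.le_of_dvd Module.finrank_pos (card6 hs hω)
  · refine hext ?_ ?_
    · rw [pow_succ, AlgEquiv.mul_apply, e1, map_mul, hσ22, hσω2]
      show ω * (ω ^ 2 * s) = s
      linear_combination s * h3
    · rw [pow_succ, AlgEquiv.mul_apply, e2, hσω2]
      rfl
  · refine hext ?_ ?_
    · rw [AlgEquiv.mul_apply, e3, e3]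
      rfl
    · rw [AlgEquiv.mul_apply, e4, map_pow, e4]
      show (ω ^ 2) ^ 2 = ω
      linear_combination ω * h3
  · refine hext ?_ ?_
    · rw [AlgEquiv.mul_apply, AlgEquiv.mul_apply, e1, map_mul, e4, e3, hσ22]
    · rw [AlgEquiv.mul_apply, AlgEquiv.mul_apply, e2, e4, map_pow, hσω2]

end Pool.Agent.R293.HO
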